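import Pool.Agent.Helper59.MB.Goals1

/-! # Packet MB-ISO (MP_49a1ce_an): the model is isomorphic to the base system -/

set_option autoImplicit false

open MeasureTheory Filter Topology

namespace Pool.Agent.Helper95.MB

open Pool.Agent.Helper59.MB

theorem meas_eq {Y Z : Type} [MeasurableSpace Y] [MeasurableSpace Z] [TopologicalSpace Z]
    [SecondCountableTopology Z] [T2Space Z] [OpensMeasurableSpace Z] {f g : Y → Z}
    (hf : Measurable f) (hg : Measurable g) : MeasurableSet {y | f y = g y} :=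
  (isClosed_diagonal (X := Z)).measurableSet.preimage (hf.prodMk hg)

section

variable (s : ℕ → ℕ) (V : ℕ → Set (ℕ → ℝ)) (m : Measure A) [IsProbabilityMeasure m]

theorem Psi_meas (h : ∀ (k : ℕ) (n : ℤ), Measurable fun x : Bas => psi s V m k x.1 x.2 n) :
    Measurable (Psi s V m) := by
  refine Measurable.prodMk ?_ measurable_snd
  rw [measurable_pi_iff]
  intro n
  rw [measurable_pi_iff]
  intro j
  apply measurable_to_bool
  have hs : ((fun x : Bas => (Psi s V m x).1 n j) ⁻¹' {true}) =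
      ⋃ K : ℕ, ⋂ k : ℕ, ⋂ _ : k ≥ K, {x : Bas | psi s V m k x.1 x.2 n j = true} := by
    ext x
    simp [Psi]
  change MeasurableSet ((fun x : Bas => (Psi s V m x).1 n j) ⁻¹' {true})
  rw [hs]
  refine MeasurableSet.iUnion fun K => MeasurableSet.iInter fun k => MeasurableSet.iInter fun _ => ?_
  have h1 : Measurable fun x : Bas => psi s V m k x.1 x.2 n j :=
    (measurable_pi_apply j).comp (h k n)
  exact h1 (measurableSet_singleton true)

theorem Psi_TB (h : ∀ (k : ℕ) (x : Bas) (n : ℤ),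
    psi s V m k (TB x).1 (TB x).2 n = psi s V m k x.1 x.2 (n + 1)) (x : Bas) :
    Psi s V m (TB x) = TB (Psi s V m x) := by
  refine Prod.ext ?_ rfl
  funext n j
  have h1 : (TB (Psi s V m x)).1 n j = (Psi s V m x).1 (n + 1) j := rfl
  rw [h1]
  refine decide_eq_decide.2 ?_
  constructor
  · rintro ⟨K, hK⟩
    exact ⟨K, fun k hk => (congrFun (h k x n) j).symm.trans (hK k hk)⟩
  · rintro ⟨K, hK⟩
    exact ⟨K, fun k hk => (congrFun (h k x n) j).trans (hK k hk)⟩

end

theorem t_ISO (hPSA : S_PSA) (hPSB : S_PSB) (hDUP : S_DUP) (hHAR : S_HAR) : S_ISO := by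
  intro s V m _ hPar hcl
  obtain ⟨hD1, hD2, hD3, hD4⟩ := hDUP
  obtain ⟨-, -, -, hH⟩ := hHAR
  obtain ⟨hBp, hBT⟩ := hH m
  haveI := hBp
  obtain ⟨-, hA2, hA3, -⟩ := hPSA s V (mdup m) hPar
  have hB := hPSB s V (mdup m) hPar
  have hXm : MeasurableSet (X s V (mdup m)) := hcl.measurableSet
  set F : Bas → Bas := fun x => Psi s V (mdup m) (dupB x) with hF
  have hFm : Measurable F := (Psi_meas s V (mdup m) hA3).comp (hD1 m).measurable
  have hae : ∀ᵐ x ∂(BM m), F x ∈ X s V (mdup m) ∧ dec (F x) = x := by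
    have h1 := (hD1 m).quasiMeasurePreserving.ae hB
    filter_upwards [h1] with x hx
    exact ⟨hx.1, hD4 x (F x) rfl hx.2⟩
  have hFT : ∀ x, F (TB x) = TB (F x) := fun x => by
    simp only [hF]
    rw [hD3, Psi_TB s V (mdup m) hA2]
  obtain ⟨x0, hx0, -⟩ := hae.exists
  classical
  set G : Bas → X s V (mdup m) := fun x =>
    ⟨if F x ∈ X s V (mdup m) then F x else F x0, by split_ifs with h; exacts [h, hx0]⟩ with hG
  have hGm : Measurable G :=
    (Measurable.ite (hFm hXm) hFm measurable_const).subtype_mk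
  have hGF : ∀ x, F x ∈ X s V (mdup m) → (G x : Bas) = F x := fun x hx => if_pos hx
  have hTXv : ∀ z : X s V (mdup m), ((TX s V (mdup m)) z : Bas) = TB z := fun z => rfl
  have hTXm : Measurable (⇑(TX s V (mdup m))) := (TX s V (mdup m)).continuous.measurable
  have hTBm : Measurable (⇑TB) := TB.continuous.measurable
  have hcomm : ∀ᵐ x ∂(BM m), TX s V (mdup m) (G x) = G (TB x) := by
    filter_upwards [hae] with x hx
    apply Subtype.ext
    rw [hTXv, hGF x hx.1]
    have h2 : F (TB x) ∈ X s V (mdup m) := by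
      rw [hFT]
      exact (TB_mem s V (mdup m) (F x)).2 hx.1
    rw [hGF _ h2, hFT]
  set φ : X s V (mdup m) → Bas := fun z => dec z with hφ
  have hφm : Measurable φ := hD2.comp measurable_subtype_coe
  have hφG : ∀ᵐ x ∂(BM m), φ (G x) = x := by
    filter_upwards [hae] with x hx
    simp only [hφ]
    rw [hGF x hx.1]
    exact hx.2
  refine ⟨(BM m).map G, Measure.isProbabilityMeasure_map hGm.aemeasurable, ⟨hTXm, ?_⟩,
    φ, G, ⟨hφm, ?_⟩, ⟨hGm, rfl⟩, ?_, ?_, hφG⟩
  · rw [Measure.map_map hTXm hGm]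
    have h1 : (⇑(TX s V (mdup m)) ∘ G) =ᵐ[BM m] (G ∘ ⇑TB) := hcomm
    rw [Measure.map_congr h1, ← Measure.map_map hGm hTBm, hBT.map_eq]
  · rw [Measure.map_map hφm hGm]
    have h1 : (φ ∘ G) =ᵐ[BM m] id := hφG
    rw [Measure.map_congr h1, Measure.map_id]
  · refine (ae_map_iff (p := fun z => φ (TX s V (mdup m) z) = TB (φ z)) hGm.aemeasurable
      (meas_eq (hφm.comp hTXm) (hTBm.comp hφm))).2 ?_
    have h2 : ∀ᵐ x ∂(BM m), φ (G (TB x)) = TB x := hBT.quasiMeasurePreserving.ae hφG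
    filter_upwards [hcomm, h2, hφG] with x h3 h4 h5
    rw [h3, h4, h5]
  · refine (ae_map_iff (p := fun z => G (φ z) = z) hGm.aemeasurable
      (meas_eq (hGm.comp hφm) measurable_id)).2 ?_
    filter_upwards [hφG] with x hx
    rw [hx]

end Pool.Agent.Helper95.MB
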